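import Pool.Agent.R347.LC.Fld

/-!
# Measures of linear independence and fields of numbers with good rational approximations
-/

set_option autoImplicit false

namespace Pool.Agent.R347.LC

open Finset

variable {q : ℕ → ℕ} (hq : ∀ k, 2 ≤ q k)

include hq

/-- finitely many elements, one of them nonzero: the numerators -/
theorem nums {ι : Type} [Fintype ι] [DecidableEq ι] (x : ι → ℝ) (hx : ∀ i, RA q (x i)) :
    ∃ (g M : ℕ), 1 ≤ M ∧ ∀ (A : ℝ) (B : ℕ), ∃ (k : ℕ) (v : ℕ) (m : ι → ℤ) (ε : ℝ), 1 ≤ v ∧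
      v ≤ q k ^ g ∧ 0 ≤ ε ∧ (∀ i, |(m i : ℝ)| ≤ ((M * q k ^ g : ℕ) : ℝ)) ∧
      (∀ i, |(m i : ℝ) - v * x i| ≤ v * ε) ∧ A * ((q k ^ B : ℕ) : ℝ) * ε < 1 ∧
      (∀ i, x i ≠ 0 → m i ≠ 0) := by
  obtain ⟨g, hg⟩ := common x hx
  obtain ⟨M, hM⟩ := exists_nat_ge (∑ i, |x i| + 1)
  have hM1 : 1 ≤ M := by
    have h0 : 0 ≤ ∑ i, |x i| := Finset.sum_nonneg fun _ _ => abs_nonneg _
    have : (1 : ℝ) ≤ M := by linarith
    exact_mod_cast this
  refine ⟨g, M, hM1, fun A B => ?_⟩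
  obtain ⟨κ, hκ⟩ := beat hq (|A| + ∑ i, 1 / |x i|) B
  obtain ⟨k, hk⟩ := hg κ
  obtain ⟨v, m, hv1, hvg, hm⟩ := hk k le_rfl
  have hv0 : (0 : ℝ) < v := by exact_mod_cast hv1
  have hq1 : (1 : ℝ) ≤ q k := by exact_mod_cast (by have := hq k; omega : 1 ≤ q k)
  have hqκ : (0 : ℝ) < (q k : ℝ) ^ κ := by positivity
  have hS0 : 0 ≤ ∑ i, 1 / |x i| := Finset.sum_nonneg fun _ _ => by positivity
  have hqB : (1 : ℝ) ≤ (q k : ℝ) ^ B := one_le_pow₀ hq1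
  have hκ' := hκ k
  have e1 : ∀ i, |(m i : ℝ) - v * x i| ≤ v * ((q k : ℝ) ^ κ)⁻¹ := fun i => by
    have h1 : (m i : ℝ) - v * x i = -(v * (x i - (m i : ℝ) / v)) := by
      field_simp
      ring
    rw [h1, abs_neg, abs_mul, abs_of_pos hv0]
    exact mul_le_mul_of_nonneg_left (hm i) hv0.le
  refine ⟨k, v, m, ((q k : ℝ) ^ κ)⁻¹, hv1, hvg, by positivity, fun i => ?_, e1, ?_, fun i hi h0 => ?_⟩
  · have h1 := e1 i
    have h2 := inv_pow_le_one hq k κ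
    have h3 : |x i| ≤ ∑ i, |x i| := Finset.single_le_sum (f := fun i => |x i|)
      (fun _ _ => abs_nonneg _) (Finset.mem_univ i)
    have h4 := abs_sub_abs_le_abs_sub (m i : ℝ) (v * x i)
    rw [abs_mul, abs_of_pos hv0] at h4
    have h5 : |(m i : ℝ)| ≤ v * (|x i| + 1) := by nlinarith
    have h6 : (v : ℝ) ≤ ((q k ^ g : ℕ) : ℝ) := by exact_mod_cast hvg
    calc |(m i : ℝ)| ≤ v * (|x i| + 1) := h5
      _ ≤ ((q k ^ g : ℕ) : ℝ) * M := mul_le_mul h6 (by linarith) (by positivity) (by positivity)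
      _ = ((M * q k ^ g : ℕ) : ℝ) := by push_cast; ring
  · rw [← div_eq_mul_inv, div_lt_one hqκ]
    refine lt_of_le_of_lt ?_ hκ'
    push_cast
    refine mul_le_mul_of_nonneg_right ?_ (by positivity)
    linarith [le_abs_self A]
  · have h1 := e1 i
    rw [h0, Int.cast_zero, zero_sub, abs_neg, abs_mul, abs_of_pos hv0] at h1
    have h2 : |x i| ≤ ((q k : ℝ) ^ κ)⁻¹ := le_of_mul_le_mul_left h1 hv0
    have h3 : 0 < |x i| := abs_pos.2 hi
    have h4 : 1 / |x i| ≤ ∑ i, 1 / |x i| := Finset.single_le_sum (f := fun i => 1 / |x i|)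
      (fun _ _ => by positivity) (Finset.mem_univ i)
    have h5 : (q k : ℝ) ^ κ ≤ 1 / |x i| := by
      rw [le_div_iff₀ h3]
      calc (q k : ℝ) ^ κ * |x i| ≤ (q k : ℝ) ^ κ * ((q k : ℝ) ^ κ)⁻¹ :=
            mul_le_mul_of_nonneg_left h2 hqκ.le
        _ = 1 := mul_inv_cancel₀ hqκ.ne'
    have h6 : ∑ i, 1 / |x i| ≤ (|A| + ∑ i, 1 / |x i|) * (q k : ℝ) ^ B := by
      have h7 : 0 ≤ |A| := abs_nonneg A
      nlinarith
    linarith

/-- a linear form with a measure has no zero over the field -/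
theorem noZero {ι : Type} [Fintype ι] [DecidableEq ι] (y : ι → ℝ) (i₀ : ι)
    (hy : ∃ (c : ℝ) (N : ℕ), 0 < c ∧ ∀ (m : ι → ℤ) (H : ℝ), m i₀ ≠ 0 → 1 ≤ H →
      (∀ i, |(m i : ℝ)| ≤ H) → c ≤ H ^ N * |∑ i, (m i : ℝ) * y i|)
    (x : ι → ℝ) (hx : ∀ i, RA q (x i)) (hx0 : x i₀ ≠ 0) : ∑ i, x i * y i ≠ 0 := by
  intro h0
  obtain ⟨c, N, hc, hmeas⟩ := hy
  obtain ⟨g, M, hM1, h⟩ := nums hq x hx
  obtain ⟨k, v, m, ε, hv1, hvg, hε, hmM, hme, hA, hm0⟩ := h ((M : ℝ) ^ N * (∑ i, |y i|) / c) (g * N + g)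
  have hq1 : 1 ≤ q k := by have := hq k; omega
  have h1 : c ≤ ((M * q k ^ g : ℕ) : ℝ) ^ N * |∑ i, (m i : ℝ) * y i| := by
    refine hmeas m _ (hm0 i₀ hx0) ?_ hmM
    exact_mod_cast Nat.one_le_iff_ne_zero.2 (Nat.mul_ne_zero (by omega) (pow_ne_zero _ (by omega)))
  have h2 : |∑ i, (m i : ℝ) * y i| ≤ v * ε * ∑ i, |y i| := by
    have e1 : ∑ i, (m i : ℝ) * y i = ∑ i, ((m i : ℝ) - v * x i) * y i := by
      simp only [sub_mul, Finset.sum_sub_distrib, mul_assoc, ← Finset.mul_sum]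
      rw [h0, mul_zero, sub_zero]
    rw [e1, Finset.mul_sum]
    refine (Finset.abs_sum_le_sum_abs _ _).trans (Finset.sum_le_sum fun i _ => ?_)
    rw [abs_mul]
    exact mul_le_mul_of_nonneg_right (hme i) (abs_nonneg _)
  have h3 : (v : ℝ) ≤ ((q k ^ g : ℕ) : ℝ) := by exact_mod_cast hvg
  have hS0 : 0 ≤ ∑ i, |y i| := Finset.sum_nonneg fun _ _ => abs_nonneg _
  have h4 : c ≤ ((M * q k ^ g : ℕ) : ℝ) ^ N * (((q k ^ g : ℕ) : ℝ) * ε * ∑ i, |y i|) := by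
    refine h1.trans (mul_le_mul_of_nonneg_left (h2.trans ?_) (by positivity))
    exact mul_le_mul_of_nonneg_right (mul_le_mul_of_nonneg_right h3 hε) hS0
  have h5 : ((M * q k ^ g : ℕ) : ℝ) ^ N * (((q k ^ g : ℕ) : ℝ) * ε * ∑ i, |y i|) =
      c * ((M : ℝ) ^ N * (∑ i, |y i|) / c * ((q k ^ (g * N + g) : ℕ) : ℝ) * ε) := by
    push_cast
    rw [mul_pow, ← pow_mul, pow_add]
    field_simp
  rw [h5] at h4
  have h6 := mul_lt_mul_of_pos_left hA hc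
  linarith

/-- three numbers -/
theorem lin3 (L : IntermediateField ℚ ℝ) (hL : ∀ x ∈ L, RA q x) {t z : ℝ} (ht : t ∉ L)
    (hy : ∃ (c : ℝ) (N : ℕ), 0 < c ∧ ∀ (a b d : ℤ) (H : ℝ), d ≠ 0 → 1 ≤ H →
      |(b : ℝ)| ≤ H → |(d : ℝ)| ≤ H → c ≤ H ^ N * |(a : ℝ) + b * t + d * z|) :
    LinearIndependent L ![1, t, z] := by
  rw [Fintype.linearIndependent_iff]
  intro f hf
  rw [Fin.sum_univ_three] at hf
  simp only [Matrix.cons_val_zero, Matrix.cons_val_one, Matrix.cons_val_two, Matrix.head_cons,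
    Matrix.tail_cons] at hf
  have hf' : (f 0 : ℝ) + f 1 * t + f 2 * z = 0 := by
    have : (f 0 : ℝ) * 1 + f 1 * t + f 2 * z = 0 := hf
    linarith
  have h2 : f 2 = 0 := by
    by_contra hne
    refine noZero hq ![1, t, z] 2 ?_ (fun i => (f i : ℝ)) (fun i => hL _ (f i).2)
      (fun h => hne (by exact_mod_cast h)) ?_
    · obtain ⟨c, N, hc, h⟩ := hy
      refine ⟨c, N, hc, fun m H hm hH hmH => ?_⟩
      have := h (m 0) (m 1) (m 2) H hm hH (hmH 1) (hmH 2)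
      rw [Fin.sum_univ_three]
      simpa using this
    · rw [Fin.sum_univ_three]
      simpa using hf'
  rw [h2] at hf'
  have h1 : f 1 = 0 := by
    by_contra hne
    apply ht
    have h3 : (f 1 : ℝ) ≠ 0 := fun h => hne (by exact_mod_cast h)
    have h4 : t = ((-f 0 / f 1 : L) : ℝ) := by
      push_cast
      rw [eq_div_iff h3]
      simp only [ZeroMemClass.coe_zero, zero_mul, add_zero] at hf'
      linarith
    rw [h4]
    exact (-f 0 / f 1 : L).2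
  rw [h1] at hf'
  have h0 : f 0 = 0 := by
    have : (f 0 : ℝ) = 0 := by simpa using hf'
    exact_mod_cast this
  intro i
  fin_cases i <;> assumption

/-- transcendence over the field -/
theorem trans (L : IntermediateField ℚ ℝ) (hL : ∀ x ∈ L, RA q x) {t : ℝ}
    (ht : ∀ D : ℕ, ∃ (c : ℝ) (N : ℕ), 0 < c ∧ ∀ (m : Fin (D + 1) → ℤ) (H : ℝ), m ≠ 0 → 1 ≤ H →
      (∀ i, |(m i : ℝ)| ≤ H) → c ≤ H ^ N * |∑ i, (m i : ℝ) * t ^ (i : ℕ)|) :
    Transcendental L t := by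
  rintro ⟨P, hP, hP0⟩
  obtain ⟨c, N, hc, h⟩ := ht P.natDegree
  refine noZero hq (fun i : Fin (P.natDegree + 1) => t ^ (i : ℕ)) (Fin.last _) ⟨c, N, hc, ?_⟩
    (fun i => ((P.coeff i : L) : ℝ)) (fun i => hL _ (P.coeff i).2) ?_ ?_
  · intro m H hm hH hmH
    exact h m H (fun h => hm (by rw [h]; rfl)) hH hmH
  · intro h0
    apply hP
    rw [← Polynomial.leadingCoeff_eq_zero]
    have h1 : ((P.leadingCoeff : L) : ℝ) = 0 := by simpa using h0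
    exact_mod_cast h1
  · rw [Polynomial.aeval_eq_sum_range, Finset.sum_range] at hP0
    rw [← hP0]
    refine Finset.sum_congr rfl fun i _ => ?_
    rfl

/-- finitely many numbers far from rational subspaces -/
theorem space (L : IntermediateField ℚ ℝ) (hL : ∀ x ∈ L, RA q x) {ι τ : Type} [Fintype ι]
    [DecidableEq ι] [Fintype τ] [DecidableEq τ] (z : ι → ℝ) (θ : τ → ℝ)
    (hz : ∃ (c : ℝ) (N : ℕ), 0 < c ∧ ∀ (v : ℕ) (a : ι → ℤ) (b : ι → τ → ℤ) (H : ℝ), 0 < v →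
      (v : ℝ) ≤ H → (∀ i j, |(b i j : ℝ)| ≤ H) →
      ∃ i, c / H ^ N ≤ |z i - ((a i : ℝ) + ∑ j, θ j * b i j) / v|) :
    ∃ i, ∀ α ∈ L, ∀ β : τ → L, z i ≠ α + ∑ j, (β j : ℝ) * θ j := by
  by_contra hcon
  push Not at hcon
  choose α hα β hαβ using hcon
  obtain ⟨c, N, hc, hmeas⟩ := hz
  obtain ⟨g, M, hM1, h⟩ := nums hq (Sum.elim α (fun p : ι × τ => (β p.1 p.2 : ℝ))) (fun i => by
    rcases i with i | i
    · exact hL _ (hα i)
    · exact hL _ (β i.1 i.2).2)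
  obtain ⟨k, v, m, ε, hv1, hvg, hε, hmM, hme, hA, -⟩ := h ((M : ℝ) ^ N * (1 + ∑ j, |θ j|) / c) (g * N)
  have hq1 : 1 ≤ q k := by have := hq k; omega
  have hv0 : (0 : ℝ) < v := by exact_mod_cast hv1
  have hH1 : 1 ≤ M * q k ^ g :=
    Nat.one_le_iff_ne_zero.2 (Nat.mul_ne_zero (by omega) (pow_ne_zero _ (by omega)))
  have hH0 : (0 : ℝ) < ((M * q k ^ g : ℕ) : ℝ) := by exact_mod_cast hH1
  obtain ⟨i, hi⟩ := hmeas v (fun i => m (Sum.inl i)) (fun i j => m (Sum.inr (i, j)))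
    ((M * q k ^ g : ℕ) : ℝ) hv1 (by
      have : v ≤ M * q k ^ g := hvg.trans (Nat.le_mul_of_pos_left _ hM1)
      exact_mod_cast this) (fun i j => hmM _)
  have hS0 : 0 ≤ ∑ j, |θ j| := Finset.sum_nonneg fun _ _ => abs_nonneg _
  have h1 : |z i - (((m (Sum.inl i) : ℤ) : ℝ) + ∑ j, θ j * ((m (Sum.inr (i, j)) : ℤ) : ℝ)) / v| ≤
      (1 + ∑ j, |θ j|) * ε := by
    have e1 : z i - (((m (Sum.inl i) : ℤ) : ℝ) + ∑ j, θ j * ((m (Sum.inr (i, j)) : ℤ) : ℝ)) / v =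
        -((((m (Sum.inl i) : ℤ) : ℝ) - v * α i) +
          ∑ j, θ j * (((m (Sum.inr (i, j)) : ℤ) : ℝ) - v * β i j)) / v := by
      rw [hαβ i]
      simp only [mul_sub, Finset.sum_sub_distrib]
      have e2 : ∑ j, θ j * ((v : ℝ) * β i j) = v * ∑ j, (β i j : ℝ) * θ j := by
        rw [Finset.mul_sum]
        exact Finset.sum_congr rfl fun j _ => by ring
      rw [e2]
      field_simp
      ring
    rw [e1, abs_div, abs_neg, abs_of_pos hv0, div_le_iff₀ hv0]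
    have e2 := hme (Sum.inl i)
    have e3 := fun j => hme (Sum.inr (i, j))
    simp only [Sum.elim_inl, Sum.elim_inr] at e2 e3
    have e4 : |∑ j, θ j * (((m (Sum.inr (i, j)) : ℤ) : ℝ) - v * β i j)| ≤
        (∑ j, |θ j|) * (v * ε) := by
      rw [Finset.sum_mul]
      refine (Finset.abs_sum_le_sum_abs _ _).trans (Finset.sum_le_sum fun j _ => ?_)
      rw [abs_mul]
      exact mul_le_mul_of_nonneg_left (e3 j) (abs_nonneg _)
    calc |(((m (Sum.inl i) : ℤ) : ℝ) - v * α i) +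
          ∑ j, θ j * (((m (Sum.inr (i, j)) : ℤ) : ℝ) - v * β i j)|
        ≤ |((m (Sum.inl i) : ℤ) : ℝ) - v * α i| +
          |∑ j, θ j * (((m (Sum.inr (i, j)) : ℤ) : ℝ) - v * β i j)| := abs_add_le _ _
      _ ≤ v * ε + (∑ j, |θ j|) * (v * ε) := add_le_add e2 e4
      _ = (1 + ∑ j, |θ j|) * ε * v := by ring
  have h2 := hi.trans h1
  rw [div_le_iff₀ (by positivity)] at h2
  have h5 : (1 + ∑ j, |θ j|) * ε * ((M * q k ^ g : ℕ) : ℝ) ^ N =
      c * ((M : ℝ) ^ N * (1 + ∑ j, |θ j|) / c * ((q k ^ (g * N) : ℕ) : ℝ) * ε) := by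
    push_cast
    rw [mul_pow, ← pow_mul]
    field_simp
  rw [h5] at h2
  have h6 := mul_lt_mul_of_pos_left hA hc
  linarith

end Pool.Agent.R347.LC
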