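import Pool.Agent.R347.LF.Fld

/-!
# Real numbers with good rational approximations at given scales
-/

set_option autoImplicit false

namespace Pool.Agent.R347.LC

open Pool.Agent.R347.LF

/-- `x` has for some `h` and every `κ`, for all large `k`, an approximation `u / v` with `1 ≤ v ≤ (q k) ^ h` and
with an error of at most `(q k) ^ (-κ)` -/
def RA (q : ℕ → ℕ) (x : ℝ) : Prop :=
  ∃ h : ℕ, ∀ κ : ℕ, ∃ k₀ : ℕ, ∀ k ≥ k₀, ∃ (u : ℤ) (v : ℕ), 1 ≤ v ∧ v ≤ q k ^ h ∧
    |x - (u : ℝ) / v| ≤ (((q k : ℕ) : ℝ) ^ κ)⁻¹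

variable {q : ℕ → ℕ} (hq : ∀ k, 2 ≤ q k)

include hq

theorem inv_pow_le_one (k κ : ℕ) : (((q k : ℕ) : ℝ) ^ κ)⁻¹ ≤ 1 := by
  have h1 : (1 : ℝ) ≤ q k := by exact_mod_cast (by have := hq k; omega : 1 ≤ q k)
  exact inv_le_one_of_one_le₀ (one_le_pow₀ h1)

theorem ra_iff (x : ℝ) : RA q x ↔ Ap q (⊥ : IntermediateField ℚ ℝ) x := by
  constructor
  · rintro ⟨h, hh⟩
    obtain ⟨C, hC⟩ := exists_nat_ge (|x| + 2)
    refine ⟨h + C, fun κ => ?_⟩
    obtain ⟨k₀, hk₀⟩ := hh κ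
    refine ⟨k₀, fun k hk => ?_⟩
    obtain ⟨u, v, hv1, hvh, hxu⟩ := hk₀ k hk
    have hv0 : (0 : ℝ) < v := by exact_mod_cast hv1
    have hv0' : (v : ℝ) ≠ 0 := hv0.ne'
    refine ⟨(u : ℝ) / v, ?_, ?_, hxu⟩
    · rw [IntermediateField.mem_bot]
      exact ⟨(u : ℚ) / v, by simp⟩
    · refine ⟨Polynomial.C (v : ℤ) * Polynomial.X - Polynomial.C u, ?_, ?_, ?_⟩
      · intro h0
        have h1 := congrArg (fun P => Polynomial.coeff P 1) h0
        simp only [Polynomial.coeff_sub, Polynomial.coeff_C_mul, Polynomial.coeff_X_one,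
          Polynomial.coeff_C_succ, Polynomial.coeff_zero, mul_one, sub_zero] at h1
        omega
      · have hq1 : 1 ≤ q k := by have := hq k; omega
        have h1 : v ≤ q k ^ (h + C) := hvh.trans (Nat.pow_le_pow_right hq1 (by omega))
        have h2 : |u| ≤ ((q k ^ (h + C) : ℕ) : ℤ) := by
          have h3 : |(u : ℝ)| ≤ ((q k ^ (h + C) : ℕ) : ℝ) := by
            have h4 : |(u : ℝ) / v| ≤ |x| + 1 := by
              have h5 := hxu.trans (inv_pow_le_one hq k κ)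
              have h6 := abs_sub_abs_le_abs_sub ((u : ℝ) / v) x
              rw [abs_sub_comm] at h6
              linarith
            rw [abs_div, abs_of_pos hv0, div_le_iff₀ hv0] at h4
            have h7 : (v : ℝ) ≤ (q k : ℝ) ^ h := by exact_mod_cast hvh
            have h8 : (C : ℝ) ≤ (q k : ℝ) ^ C := by exact_mod_cast nat_le_pow (hq k) C
            calc |(u : ℝ)| ≤ (|x| + 1) * v := h4
              _ ≤ (C : ℝ) * v := mul_le_mul_of_nonneg_right (by linarith) hv0.le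
              _ ≤ (q k : ℝ) ^ C * (q k : ℝ) ^ h := mul_le_mul h8 h7 hv0.le (by positivity)
              _ = ((q k ^ (h + C) : ℕ) : ℝ) := by push_cast; rw [pow_add]; ring
          exact_mod_cast h3
        intro n
        rcases n with _ | _ | n
        · simpa using h2
        · simp only [zero_add, Polynomial.coeff_sub, Polynomial.coeff_C_mul, Polynomial.coeff_X_one,
            Polynomial.coeff_C_succ, mul_one, sub_zero]
          rw [abs_of_nonneg (by positivity)]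
          exact_mod_cast h1
        · simp only [Polynomial.coeff_sub, Polynomial.coeff_C_mul, Polynomial.coeff_C_succ, sub_zero]
          rw [Polynomial.coeff_X_of_ne_one (by omega), mul_zero, abs_zero]
          positivity
      · simp only [map_sub, map_mul, Polynomial.aeval_C, Polynomial.aeval_X]
        simp only [algebraMap_int_eq, eq_intCast, Int.cast_natCast]
        field_simp
        ring
  · intro hx
    obtain ⟨h, hh⟩ := hx.to hq
    refine ⟨h, fun κ => ?_⟩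
    obtain ⟨k₀, hk₀⟩ := hh κ
    refine ⟨k₀, fun k hk => ?_⟩
    obtain ⟨a, ⟨v, hv1, hvh, hint, -⟩, hxa⟩ := hk₀ k hk
    obtain ⟨r, hr⟩ := IntermediateField.mem_bot.1 a.2
    have h1 : IsIntegral ℤ ((v : ℚ) * r) := by
      have h2 : IsIntegral ℤ (((v : (⊥ : IntermediateField ℚ ℝ)) * a :
          (⊥ : IntermediateField ℚ ℝ)) : ℝ) := by
        have h3 := hint.map ((IntermediateField.val (⊥ : IntermediateField ℚ ℝ)).restrictScalars ℤ)
        exact h3
      have h3 : (((v : (⊥ : IntermediateField ℚ ℝ)) * a : (⊥ : IntermediateField ℚ ℝ)) : ℝ) =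
          algebraMap ℚ ℝ ((v : ℚ) * r) := by
        push_cast
        rw [← hr]
      rw [h3] at h2
      exact (isIntegral_algebraMap_iff (algebraMap ℚ ℝ).injective).1 h2
    obtain ⟨u, hu⟩ := IsIntegrallyClosed.isIntegral_iff.1 h1
    refine ⟨u, v, hv1, hvh, ?_⟩
    have hv0 : (v : ℝ) ≠ 0 := by exact_mod_cast (by omega : v ≠ 0)
    have h4 : (u : ℝ) / v = (a : ℝ) := by
      rw [← hr]
      have h5 : (u : ℚ) = (v : ℚ) * r := by simpa using hu
      have h6 : (u : ℝ) = (v : ℝ) * (r : ℝ) := by exact_mod_cast h5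
      rw [h6]
      simp [hv0]
    rw [h4]
    exact hxa

omit hq in
/-- finitely many numbers have approximations with a common denominator -/
theorem common {ι : Type} [Fintype ι] [DecidableEq ι] (x : ι → ℝ) (hx : ∀ i, RA q (x i)) :
    ∃ g : ℕ, ∀ κ : ℕ, ∃ k₀ : ℕ, ∀ k ≥ k₀, ∃ (v : ℕ) (m : ι → ℤ), 1 ≤ v ∧ v ≤ q k ^ g ∧
      ∀ i, |x i - (m i : ℝ) / v| ≤ (((q k : ℕ) : ℝ) ^ κ)⁻¹ := by
  choose h hh using hx
  refine ⟨∑ i, h i, fun κ => ?_⟩
  choose k₀ hk₀ using fun i => hh i κ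
  refine ⟨∑ i, k₀ i, fun k hk => ?_⟩
  have h1 : ∀ i, k₀ i ≤ k := fun i => (Finset.single_le_sum (f := k₀) (fun _ _ => Nat.zero_le _)
    (Finset.mem_univ i)).trans hk
  choose u v hv1 hvh hxv using fun i => hk₀ i k (h1 i)
  refine ⟨∏ i, v i, fun i => u i * ((∏ j ∈ Finset.univ.erase i, v j : ℕ) : ℤ), ?_, ?_, fun i => ?_⟩
  · exact Nat.succ_le_of_lt (Finset.prod_pos fun i _ => Nat.lt_of_lt_of_le Nat.zero_lt_one (hv1 i))
  · rw [← Finset.prod_pow_eq_pow_sum]
    exact Finset.prod_le_prod' fun i _ => hvh i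
  · have h2 : ((∏ j, v j : ℕ) : ℝ) = (v i : ℝ) * ((∏ j ∈ Finset.univ.erase i, v j : ℕ) : ℝ) := by
      exact_mod_cast (Finset.mul_prod_erase Finset.univ v (Finset.mem_univ i)).symm
    have h3 : ((∏ j ∈ Finset.univ.erase i, v j : ℕ) : ℝ) ≠ 0 := by
      exact_mod_cast (Finset.prod_pos fun j _ => hv1 j : 0 < ∏ j ∈ Finset.univ.erase i, v j).ne'
    have h4 : ((u i * ((∏ j ∈ Finset.univ.erase i, v j : ℕ) : ℤ) : ℤ) : ℝ) =
        (u i : ℝ) * ((∏ j ∈ Finset.univ.erase i, v j : ℕ) : ℝ) := by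
      push_cast
      rfl
    rw [h4, h2, mul_div_mul_right _ _ h3]
    exact hxv i

/-- powers of the scales beat each other -/
theorem beat (A : ℝ) (B : ℕ) : ∃ κ : ℕ, ∀ k, A * ((q k : ℕ) : ℝ) ^ B < ((q k : ℕ) : ℝ) ^ κ := by
  obtain ⟨C, hC⟩ := exists_nat_ge A
  refine ⟨B + (C + 1), fun k => ?_⟩
  have h1 : (1 : ℝ) ≤ q k := by exact_mod_cast (by have := hq k; omega : 1 ≤ q k)
  have h2 : ((C + 1 : ℕ) : ℝ) ≤ (q k : ℝ) ^ (C + 1) := by exact_mod_cast nat_le_pow (hq k) (C + 1)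
  have h3 : (0 : ℝ) < (q k : ℝ) ^ B := by positivity
  rw [pow_add, mul_comm]
  refine mul_lt_mul_of_pos_left ?_ h3
  push_cast at h2
  linarith

end Pool.Agent.R347.LC
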