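import Pool.Agent.R347.LC.Main
import Pool.Agent.R347.LF.Ex
import Pool.Agent.R347.LF.Main

/-!
# Fields of numbers with good rational approximations: general facts
-/

set_option autoImplicit false

namespace Pool.Agent.R347.LC

/-- the sequence `2 ^ ((k + 2)!)` -/
def qe (k : ℕ) : ℕ := 2 ^ (k + 2).factorial

theorem two_le_qe (k : ℕ) : 2 ≤ qe k := Pool.Agent.R347.LF.two_le_qL k

theorem field_ex (q : ℕ → ℕ) (hq : ∀ k, 2 ≤ q k) :
    ∃ L : IntermediateField ℚ ℝ, ∀ x, x ∈ L ↔ RA q x :=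
  ⟨Pool.Agent.R347.LF.LL hq ⊥, fun x => (ra_iff hq x).symm⟩

theorem trdeg_qe (L : IntermediateField ℚ ℝ) (hL : ∀ x, x ∈ L ↔ RA qe x) :
    Algebra.trdeg ℚ L = Cardinal.continuum :=
  Pool.Agent.R347.LF.trdeg_eq L fun A =>
    (hL _).2 ((ra_iff two_le_qe _).2 (Pool.Agent.R347.LF.xiL_ap ⊥ A))

theorem of_liouville {ξ : ℝ} (hξ : Liouville ξ) : ∃ q : ℕ → ℕ, (∀ k, 2 ≤ q k) ∧
    ∀ x ∈ IntermediateField.adjoin ℚ {ξ}, RA q x := by
  obtain ⟨q, hq, -, hap⟩ := Pool.Agent.R347.LF.liouville_ap hξ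
  refine ⟨q, hq, ?_⟩
  have hle : IntermediateField.adjoin ℚ {ξ} ≤ Pool.Agent.R347.LF.LL hq ⊥ := by
    rw [IntermediateField.adjoin_le_iff, Set.singleton_subset_iff]
    exact hap ⊥
  exact fun x hx => (ra_iff hq x).2 (hle hx)

variable {q : ℕ → ℕ} (hq : ∀ k, 2 ≤ q k)

include hq

/-- numbers with a simultaneous measure of irrationality -/
theorem simul (L : IntermediateField ℚ ℝ) (hL : ∀ x ∈ L, RA q x) {ι : Type} [Fintype ι]
    [DecidableEq ι] (z : ι → ℝ)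
    (hz : ∃ (c : ℝ) (N : ℕ), 0 < c ∧ ∀ (v : ℕ) (a : ι → ℤ), 0 < v →
      ∃ i, c / (v : ℝ) ^ N ≤ |z i - (a i : ℝ) / v|) : ∃ i, z i ∉ L := by
  obtain ⟨c, N, hc, h⟩ := hz
  obtain ⟨i, hi⟩ := space hq L hL (τ := Empty) z (fun _ => 0) ⟨c, N, hc, by
    intro v a b H hv hvH _
    obtain ⟨i, hi⟩ := h v a hv
    refine ⟨i, ?_⟩
    have hv0 : (0 : ℝ) < v := by exact_mod_cast hv
    simp only [Finset.univ_eq_empty, Finset.sum_empty, add_zero]
    exact le_trans (div_le_div_of_nonneg_left hc.le (by positivity)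
      (pow_le_pow_left₀ hv0.le hvH _)) hi⟩
  exact ⟨i, fun hmem => hi _ hmem (fun _ => 0) (by simp)⟩

/-- linear independence of `1, y, z` from a measure for forms in `1, y, z` -/
theorem lin3' (L : IntermediateField ℚ ℝ) (hL : ∀ x ∈ L, RA q x) {t z : ℝ}
    (hy : ∃ (c : ℝ) (N : ℕ), 0 < c ∧ ∀ (a b d : ℤ) (H : ℝ), (b ≠ 0 ∨ d ≠ 0) → 1 ≤ H →
      |(b : ℝ)| ≤ H → |(d : ℝ)| ≤ H → c ≤ H ^ N * |(a : ℝ) + b * t + d * z|) :
    LinearIndependent L ![1, t, z] := by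
  obtain ⟨c, N, hc, h⟩ := hy
  refine lin3 hq L hL ?_ ⟨c, N, hc, fun a b d H hd => h a b d H (Or.inr hd)⟩
  intro hmem
  refine noZero hq ![1, t] 1 ⟨c, N, hc, fun m H hm hH hmH => ?_⟩ ![t, -1] ?_ ?_ ?_
  · have h1 := h (m 0) (m 1) 0 H (Or.inl hm) hH (hmH 1) (by simp; linarith)
    rw [Fin.sum_univ_two]
    simpa using h1
  · intro i
    fin_cases i
    · exact hL _ hmem
    · exact hL _ (by simp)
  · simp
  · rw [Fin.sum_univ_two]
    simp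

end Pool.Agent.R347.LC
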